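import Mathlib
import Pool.Agent.Results.MP_70c392_co.NonLiouvilleFiniteSurvival

/-!
# Finiteness of the survival number is not a quasi-isometry invariant (MP_b633b3, Q1)

The strong product and the Cartesian product of the `4`-regular tree and the two-way infinite path
are quasi-isometric (the identity map is a quasi-isometry).  The survival number of the strong
product is at most `8`, the survival number of the Cartesian product is infinite.
-/

namespace Pool.Agent.Results.MP_b633b3_co.NotInvariant

open SimpleGraph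
open Pool.Agent.Results.MP_70c392_co.NonLiouvilleFiniteSurvival

/-- Quasi-isometric graphs. -/
def QuasiIsometric {V W : Type*} (G : SimpleGraph V) (H : SimpleGraph W) : Prop :=
  ∃ (f : V → W) (l c : ℝ), 1 ≤ l ∧ 0 ≤ c ∧
    (∀ x y, l⁻¹ * (G.dist x y : ℝ) - c ≤ (H.dist (f x) (f y) : ℝ) ∧
      (H.dist (f x) (f y) : ℝ) ≤ l * (G.dist x y : ℝ) + c) ∧
    ∀ w, ∃ v, (H.dist w (f v) : ℝ) ≤ c

/-- The distance in the Cartesian product. -/
def E1 (x y : F × ℤ) : ℕ := (y.1 * x.1⁻¹).norm + (y.2 - x.2).natAbs

lemma E1_comm (x y : F × ℤ) : E1 x y = E1 y x := by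
  unfold E1
  rw [← FreeGroup.norm_inv_eq, mul_inv_rev, inv_inv]
  omega

/-- The Cartesian product of the Cayley tree of the free group and the two-way infinite path. -/
def Hr : SimpleGraph (F × ℤ) where
  Adj x y := E1 x y = 1
  symm := ⟨fun x y h => by rw [E1_comm]; exact h⟩
  loopless := ⟨fun x h => by
    unfold E1 at h
    simp at h⟩

lemma E1_eq_zero {x y : F × ℤ} (h : E1 x y = 0) : x = y := by
  unfold E1 at h
  have h1 : (y.1 * x.1⁻¹).norm = 0 := by omega
  have h2 : (y.2 - x.2).natAbs = 0 := by omega
  rw [FreeGroup.norm_eq_zero, mul_inv_eq_one] at h1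
  exact Prod.ext h1.symm (by omega)

lemma E1_le_of_walk {x y : F × ℤ} (p : Hr.Walk x y) : E1 x y ≤ p.length := by
  induction p with
  | nil => simp [E1]
  | @cons x z y h p ih =>
    have h1 : E1 x z = 1 := h
    have h3 : (y.1 * x.1⁻¹).norm ≤ (y.1 * z.1⁻¹).norm + (z.1 * x.1⁻¹).norm := by
      have e : y.1 * x.1⁻¹ = (y.1 * z.1⁻¹) * (z.1 * x.1⁻¹) := by group
      rw [e]
      exact FreeGroup.norm_mul_le _ _
    unfold E1 at ih h1 ⊢
    rw [Walk.length_cons]
    omega

lemma exists_walk1 (n : ℕ) : ∀ x y : F × ℤ, E1 x y = n → ∃ p : Hr.Walk x y, p.length = n := by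
  induction n with
  | zero =>
    intro x y h
    have := E1_eq_zero h
    subst this
    exact ⟨Walk.nil, rfl⟩
  | succ n ih =>
    intro x y h
    obtain ⟨z, hz, hz'⟩ : ∃ z, E1 x z ≤ 1 ∧ E1 z y ≤ n := by
      by_cases h1 : y.1 * x.1⁻¹ = 1
      · have h1' : y.1 = x.1 := mul_inv_eq_one.1 h1
        unfold E1 at h
        rw [h1] at h
        simp only [FreeGroup.norm_one, zero_add] at h
        rcases lt_or_ge x.2 y.2 with h2 | h2
        · refine ⟨(x.1, x.2 + 1), ?_, ?_⟩
          · unfold E1; simp
          · unfold E1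
            simp only [h1', mul_inv_cancel, FreeGroup.norm_one, zero_add]
            omega
        · refine ⟨(x.1, x.2 - 1), ?_, ?_⟩
          · unfold E1; simp
          · unfold E1
            simp only [h1', mul_inv_cancel, FreeGroup.norm_one, zero_add]
            omega
      · obtain ⟨s, hs⟩ := last _ h1
        refine ⟨(letter s * x.1, x.2), ?_, ?_⟩
        · unfold E1
          simp [norm_letter s]
        · unfold E1 at h ⊢
          have e : y.1 * (letter s * x.1)⁻¹ = y.1 * x.1⁻¹ * (letter s)⁻¹ := by group
          simp only [e]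
          omega
    have htri : E1 x y ≤ E1 x z + E1 z y := by
      have h3 : (y.1 * x.1⁻¹).norm ≤ (y.1 * z.1⁻¹).norm + (z.1 * x.1⁻¹).norm := by
        have e : y.1 * x.1⁻¹ = (y.1 * z.1⁻¹) * (z.1 * x.1⁻¹) := by group
        rw [e]
        exact FreeGroup.norm_mul_le _ _
      unfold E1
      omega
    obtain ⟨p, hp⟩ := ih z y (by omega)
    have hadj : Hr.Adj x z := by
      show E1 x z = 1
      omega
    exact ⟨Walk.cons hadj p, by rw [Walk.length_cons, hp]⟩

lemma connected1 : Hr.Connected := by
  have : Nonempty (F × ℤ) := ⟨(1, 0)⟩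
  refine ⟨fun x y => ?_⟩
  obtain ⟨p, -⟩ := exists_walk1 (E1 x y) x y rfl
  exact ⟨p⟩

lemma dist_eq1 (x y : F × ℤ) : Hr.dist x y = E1 x y := by
  apply le_antisymm
  · obtain ⟨p, hp⟩ := exists_walk1 (E1 x y) x y rfl
    rw [← hp]
    exact dist_le p
  · obtain ⟨p, hp⟩ := connected1.exists_walk_length_eq_dist x y
    rw [← hp]
    exact E1_le_of_walk p

lemma transitive1 : VertexTransitive Hr := by
  intro u v
  refine ⟨⟨⟨fun x => (x.1 * (u.1⁻¹ * v.1), x.2 + (v.2 - u.2)),
    fun x => (x.1 * (u.1⁻¹ * v.1)⁻¹, x.2 - (v.2 - u.2)), ?_, ?_⟩, ?_⟩, ?_⟩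
  · intro x
    apply Prod.ext
    · show x.1 * (u.1⁻¹ * v.1) * (u.1⁻¹ * v.1)⁻¹ = x.1
      group
    · simp
  · intro x
    apply Prod.ext
    · show x.1 * (u.1⁻¹ * v.1)⁻¹ * (u.1⁻¹ * v.1) = x.1
      group
    · simp
  · intro x y
    simp only [Hr, Equiv.coe_fn_mk, E1]
    have e1 : y.1 * (u.1⁻¹ * v.1) * (x.1 * (u.1⁻¹ * v.1))⁻¹ = y.1 * x.1⁻¹ := by group
    have e2 : y.2 + (v.2 - u.2) - (x.2 + (v.2 - u.2)) = y.2 - x.2 := by ring
    rw [e1, e2]
  · ext
    · simp
    · simp

lemma E_le_E1 (x y : F × ℤ) : E x y ≤ E1 x y := by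
  unfold E E1
  omega

lemma E1_le_E (x y : F × ℤ) : E1 x y ≤ 2 * E x y := by
  unfold E E1
  omega

lemma adj_of_adj1 {x y : F × ℤ} (h : Hr.Adj x y) : Gr.Adj x y := by
  have h1 : E1 x y = 1 := h
  refine ⟨?_, ?_, ?_⟩
  · rintro rfl
    unfold E1 at h1
    simp at h1
  · unfold E1 at h1
    omega
  · unfold E1 at h1
    omega

/-- The graph is locally finite. -/
noncomputable instance : Hr.LocallyFinite := fun v =>
  (((Set.toFinite (Gr.neighborSet v)).subset (fun _ h => adj_of_adj1 h) :
    (Hr.neighborSet v).Finite)).fintype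

lemma quasiIsometric : QuasiIsometric Gr Hr := by
  refine ⟨id, 2, 0, by norm_num, le_rfl, ?_, ?_⟩
  · intro x y
    simp only [id, dist_eq, dist_eq1]
    have h1 : (E x y : ℝ) ≤ E1 x y := by exact_mod_cast E_le_E1 x y
    have h2 : (E1 x y : ℝ) ≤ 2 * E x y := by exact_mod_cast E1_le_E x y
    have h3 : (0 : ℝ) ≤ E x y := Nat.cast_nonneg _
    constructor
    · linarith
    · linarith
  · intro w
    exact ⟨w, by simp⟩

/-! ### The geometry of the tree -/

lemma norm_eq_of_ne {u v : F} {a b : Fin 2 × Bool} {A B : List (Fin 2 × Bool)}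
    (hu : u.toWord = a :: A) (hv : v.toWord = b :: B) (hab : a ≠ b) :
    (u⁻¹ * v).norm = (A.length + 1) + (B.length + 1) := by
  have hru : FreeGroup.IsReduced (a :: A) := hu ▸ FreeGroup.isReduced_toWord
  have hrv : FreeGroup.IsReduced (b :: B) := hv ▸ FreeGroup.isReduced_toWord
  have h1 : u⁻¹ = FreeGroup.mk (FreeGroup.invRev (a :: A)) := by
    rw [← FreeGroup.inv_mk, ← hu, FreeGroup.mk_toWord]
  have h2 : v = FreeGroup.mk (b :: B) := by
    rw [← hv, FreeGroup.mk_toWord]
  have hinv : FreeGroup.IsReduced (FreeGroup.invRev (a :: A)) := by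
    have : FreeGroup.invRev (a :: A) = (u⁻¹).toWord := by
      rw [FreeGroup.toWord_inv, hu]
    rw [this]
    exact FreeGroup.isReduced_toWord
  have h3 : FreeGroup.IsReduced (FreeGroup.invRev (a :: A) ++ (b :: B)) := by
    unfold FreeGroup.IsReduced at *
    rw [List.isChain_append]
    refine ⟨hinv, hrv, ?_⟩
    intro x hx y hy
    have hx' : x = (a.1, !a.2) := by
      simpa [FreeGroup.invRev, eq_comm] using hx
    have hy' : y = b := by
      simpa [eq_comm] using hy
    rw [hx', hy']
    intro h
    simp only at h ⊢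
    by_contra hne
    apply hab
    apply Prod.ext h
    revert hne
    cases a.2 <;> cases b.2 <;> simp
  have h4 : u⁻¹ * v = FreeGroup.mk (FreeGroup.invRev (a :: A) ++ (b :: B)) := by
    rw [h1, h2, FreeGroup.mul_mk]
  unfold FreeGroup.norm
  rw [h4, FreeGroup.toWord_mk, h3.reduce_eq]
  simp

lemma tree (m : ℕ) : ∀ u v : F, u.toWord.take m ≠ v.toWord.take m →
    u.norm + v.norm + 2 ≤ (u⁻¹ * v).norm + 2 * m := by
  induction m with
  | zero =>
    intro u v h
    simp at h
  | succ m ih =>
    intro u v h
    cases hu : u.toWord with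
    | nil =>
      have : u = 1 := by rwa [FreeGroup.toWord_eq_nil_iff] at hu
      subst this
      simp only [FreeGroup.norm_one, inv_one, one_mul]
      omega
    | cons a A =>
      cases hv : v.toWord with
      | nil =>
        have : v = 1 := by rwa [FreeGroup.toWord_eq_nil_iff] at hv
        subst this
        simp only [FreeGroup.norm_one, mul_one, FreeGroup.norm_inv_eq]
        omega
      | cons b B =>
        have hnu : u.norm = A.length + 1 := by unfold FreeGroup.norm; rw [hu]; simp
        have hnv : v.norm = B.length + 1 := by unfold FreeGroup.norm; rw [hv]; simp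
        by_cases hab : a = b
        · subst hab
          have hA : FreeGroup.IsReduced A := by
            have : FreeGroup.IsReduced (a :: A) := hu ▸ FreeGroup.isReduced_toWord
            exact List.IsChain.tail this
          have hB : FreeGroup.IsReduced B := by
            have : FreeGroup.IsReduced (a :: B) := hv ▸ FreeGroup.isReduced_toWord
            exact List.IsChain.tail this
          have hA' : (FreeGroup.mk A).toWord = A := by rw [FreeGroup.toWord_mk, hA.reduce_eq]
          have hB' : (FreeGroup.mk B).toWord = B := by rw [FreeGroup.toWord_mk, hB.reduce_eq]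
          have h1 : u = FreeGroup.mk [a] * FreeGroup.mk A := by
            rw [FreeGroup.mul_mk, List.singleton_append, ← hu, FreeGroup.mk_toWord]
          have h2 : v = FreeGroup.mk [a] * FreeGroup.mk B := by
            rw [FreeGroup.mul_mk, List.singleton_append, ← hv, FreeGroup.mk_toWord]
          have h3 : u⁻¹ * v = (FreeGroup.mk A)⁻¹ * FreeGroup.mk B := by
            rw [h1, h2]
            group
          have h4 := ih (FreeGroup.mk A) (FreeGroup.mk B) (by
            rw [hA', hB']
            intro he
            apply h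
            rw [hu, hv, List.take_succ_cons, List.take_succ_cons, he])
          have h5 : (FreeGroup.mk A : F).norm = A.length := by unfold FreeGroup.norm; rw [hA']
          have h6 : (FreeGroup.mk B : F).norm = B.length := by unfold FreeGroup.norm; rw [hB']
          rw [h5, h6] at h4
          rw [h3, hnu, hnv]
          omega
        · rw [norm_eq_of_ne hu hv hab, hnu, hnv]
          omega

/-! ### The survival number of the Cartesian product -/

/-- The positive word of length `n` with the second letter in the place `i`, followed by `N` times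
the first letter. -/
def W (n i N : ℕ) : List (Fin 2 × Bool) :=
  (List.range n).map (fun k => (if k = i then 1 else 0, true)) ++ List.replicate N (0, true)

lemma W_pos (n i N : ℕ) : ∀ x ∈ W n i N, x.2 = true := by
  intro x hx
  unfold W at hx
  rw [List.mem_append] at hx
  rcases hx with hx | hx
  · rw [List.mem_map] at hx
    obtain ⟨k, -, rfl⟩ := hx
    rfl
  · rw [List.eq_of_mem_replicate hx]

lemma W_reduced (n i N : ℕ) : FreeGroup.IsReduced (W n i N) := by
  have h := W_pos n i N
  unfold FreeGroup.IsReduced
  generalize W n i N = L at h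
  induction L with
  | nil => exact List.isChain_nil
  | cons a L ih =>
    cases L with
    | nil => exact List.isChain_singleton a
    | cons b L =>
      rw [List.isChain_cons_cons]
      refine ⟨?_, ih (fun x hx => h x (List.mem_cons_of_mem a hx))⟩
      intro _
      rw [h a (by simp), h b (by simp)]

lemma W_take (n i N : ℕ) : (W n i N).take n =
    (List.range n).map (fun k => (if k = i then 1 else 0, true)) := by
  unfold W
  rw [List.take_append_of_le_length (by simp), List.take_of_length_le (by simp)]

lemma W_take_inj {n i j : ℕ} (hi : i < n) 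
    (h : (List.range n).map (fun k => ((if k = i then 1 else 0, true) : Fin 2 × Bool)) =
      (List.range n).map (fun k => (if k = j then 1 else 0, true))) : i = j := by
  by_contra hne
  have h1 := congrArg (fun L : List (Fin 2 × Bool) => L[i]?) h
  simp [hi, hne] at h1

lemma W_length (n i N : ℕ) : (W n i N).length = n + N := by
  unfold W
  simp

lemma many (n : ℕ) (T : Finset (F × ℤ)) (hT : T ∈ Sites Hr (2 * n) n) : n ≤ numInfinite Hr T := by
  classical
  obtain ⟨hcard, hsep⟩ := hT
  by_cases hall : ∀ v ∈ T, (Cell Hr v T).Infinite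
  · have h1 : {v | v ∈ T ∧ (Cell Hr v T).Infinite} = (T : Set (F × ℤ)) := by
      ext v
      simp only [Set.mem_ofPred_eq, Finset.mem_coe]
      exact ⟨fun h => h.1, fun h => ⟨h, hall v h⟩⟩
    unfold numInfinite
    rw [h1, Set.ncard_coe_finset]
    exact hcard
  · push Not at hall
    obtain ⟨v, hv, hvfin⟩ := hall
    set Bad : Set (F × ℤ) := ⋃ w ∈ {w | w ∈ T ∧ (Cell Hr w T).Finite}, Cell Hr w T with hBad
    have hBadfin : Bad.Finite := by
      refine Set.Finite.biUnion (T.finite_toSet.subset (fun w hw => hw.1)) ?_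
      intro w hw
      exact hw.2
    have key : ∀ i < n, ∃ w ∈ T, (Cell Hr w T).Infinite ∧ (v.1 * w.1⁻¹).toWord.take n =
        (List.range n).map (fun k => (if k = i then 1 else 0, true)) := by
      intro i hi
      -- the far vertices
      have hinj : Function.Injective (fun N : ℕ =>
          (((FreeGroup.mk (W n i N))⁻¹ * v.1, v.2) : F × ℤ)) := by
        intro N N' h
        have h1 := congrArg Prod.fst h
        simp only [mul_left_inj, inv_inj] at h1
        have h2 := congrArg FreeGroup.toWord h1
        rw [FreeGroup.toWord_mk, FreeGroup.toWord_mk, (W_reduced n i N).reduce_eq,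
          (W_reduced n i N').reduce_eq] at h2
        have h3 := congrArg List.length h2
        rw [W_length, W_length] at h3
        omega
      obtain ⟨N, hN⟩ : ∃ N : ℕ, (((FreeGroup.mk (W n i N))⁻¹ * v.1, v.2) : F × ℤ) ∉ Bad := by
        by_contra hcon
        push Not at hcon
        exact Set.infinite_of_injective_forall_mem hinj hcon hBadfin
      set u : F × ℤ := ((FreeGroup.mk (W n i N))⁻¹ * v.1, v.2) with hu
      obtain ⟨w, hw, hmin⟩ := T.exists_min_image (fun w => Hr.dist u w) ⟨v, hv⟩
      have hwinf : (Cell Hr w T).Infinite := by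
        by_contra hfin
        rw [Set.not_infinite] at hfin
        apply hN
        rw [hBad]
        simp only [Set.mem_iUnion]
        exact ⟨w, ⟨hw, hfin⟩, hmin⟩
      have hlt : Hr.dist u w < Hr.dist u v := by
        by_contra hcon
        rw [not_lt] at hcon
        apply hN
        rw [hBad]
        simp only [Set.mem_iUnion]
        exact ⟨v, ⟨hv, hvfin⟩, fun v' hv' => hcon.trans (hmin v' hv')⟩
      refine ⟨w, hw, hwinf, ?_⟩
      by_contra hne
      have hwv : w ≠ v := by
        rintro rfl
        exact lt_irrefl _ hlt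
      have hD := hsep w hw v hv hwv
      rw [dist_eq1] at hD hlt
      rw [dist_eq1] at hlt
      have hWw : (v.1 * u.1⁻¹).toWord = W n i N := by
        have : v.1 * u.1⁻¹ = FreeGroup.mk (W n i N) := by
          rw [hu]
          simp
        rw [this, FreeGroup.toWord_mk, (W_reduced n i N).reduce_eq]
      have htree := tree n (v.1 * w.1⁻¹) (v.1 * u.1⁻¹) (by
        rw [hWw, W_take]
        exact hne)
      have e1 : (v.1 * w.1⁻¹)⁻¹ * (v.1 * u.1⁻¹) = w.1 * u.1⁻¹ := by group
      rw [e1] at htree
      unfold E1 at hD hlt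
      have hu2 : u.2 = v.2 := rfl
      rw [hu2] at hlt
      omega
    choose g hgT hginf hgw using key
    have h1 : (Finset.univ.image (fun i : Fin n => g i.1 i.2) : Finset (F × ℤ)).card = n := by
      rw [Finset.card_image_of_injective]
      · simp
      · intro i j hij
        have hi := hgw i.1 i.2
        have hj := hgw j.1 j.2
        simp only at hij
        rw [hij, hj] at hi
        exact Fin.ext (W_take_inj j.2 hi).symm
    have h2 : ((Finset.univ.image (fun i : Fin n => g i.1 i.2) : Finset (F × ℤ)) : Set (F × ℤ)) ⊆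
        {v | v ∈ T ∧ (Cell Hr v T).Infinite} := by
      intro w hw
      rw [Finset.mem_coe, Finset.mem_image] at hw
      obtain ⟨i, -, rfl⟩ := hw
      exact ⟨hgT i.1 i.2, hginf i.1 i.2⟩
    have h3 := Set.ncard_le_ncard h2 (T.finite_toSet.subset (fun w hw => hw.1))
    rw [Set.ncard_coe_finset, h1] at h3
    exact h3

lemma survival_eq : survival Hr = ⊤ := by
  rw [ENat.eq_top_iff_forall_ge]
  intro n
  rcases Nat.eq_zero_or_pos n with rfl | hn
  · simp
  · apply le_sSup
    exact ⟨n, hn, rfl, 2 * n, fun T hT => many n T hT⟩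

/-- **MP_b633b3, Q1 (negated form).** There are two quasi-isometric infinite, connected, locally
finite, vertex-transitive graphs `G`, `H` with `s(G) < ∞` and `s(H) = ∞`. -/
theorem result : ∃ (V W : Type) (G : SimpleGraph V) (H : SimpleGraph W),
    Infinite V ∧ Infinite W ∧ G.Connected ∧ H.Connected ∧
    (∀ v, (G.neighborSet v).Finite) ∧ (∀ w, (H.neighborSet w).Finite) ∧
    VertexTransitive G ∧ VertexTransitive H ∧ QuasiIsometric G H ∧
    survival G < ⊤ ∧ survival H = ⊤ := by
  refine ⟨F × ℤ, F × ℤ, Gr, Hr, inferInstance, inferInstance, connected, connected1,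
    fun v => Set.toFinite _, fun v => Set.toFinite _, transitive, transitive1, quasiIsometric,
    lt_of_le_of_lt survival_le ?_, survival_eq⟩
  exact WithTop.coe_lt_top 8

end Pool.Agent.Results.MP_b633b3_co.NotInvariant
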